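import Pool.Agent.Work.MP_2cd205_al.Defs

/-!
# An action of `Γ(K_{3,6})` on `Fin 4 × ℤ` by signed affine permutations
-/

namespace Pool.Agent.Work.MP_2cd205_al

/-- Data of a map `(i, n) ↦ (t, s * n + c)`. -/
abbrev Tab := Fin 4 → Fin 4 × ℤ × ℤ

/-- The map of `Fin 4 × ℤ` given by a table. -/
def app (f : Tab) (p : Fin 4 × ℤ) : Fin 4 × ℤ := ((f p.1).1, (f p.1).2.1 * p.2 + (f p.1).2.2)

/-- Composition of tables. -/
def comp (f g : Tab) : Tab := fun i =>
  ((f (g i).1).1, (f (g i).1).2.1 * (g i).2.1, (f (g i).1).2.1 * (g i).2.2 + (f (g i).1).2.2)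

/-- The identity table. -/
def idT : Tab := fun i => (i, 1, 0)

lemma app_comp (f g : Tab) (p : Fin 4 × ℤ) : app (comp f g) p = app f (app g p) := by
  unfold app comp
  ext
  · rfl
  · simp only
    ring

lemma app_id (p : Fin 4 × ℤ) : app idT p = p := by
  unfold app idT
  ext
  · rfl
  · simp

/-- The nine tables of the folded `3 × 3` array. -/
def tab : Fin 3 → Fin 3 → Tab
  | 0, 0 => ![(2, -1, -1), (3, -1, 0), (0, -1, -1), (1, -1, 0)]
  | 0, 1 => ![(1, -1, -1), (0, -1, -1), (3, -1, 0), (2, -1, 0)]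
  | 0, 2 => ![(3, 1, 1), (2, 1, 0), (1, 1, 0), (0, 1, -1)]
  | 1, 0 => ![(0, 1, 0), (1, -1, 0), (2, 1, 0), (3, -1, 0)]
  | 1, 1 => ![(0, 1, 0), (1, 1, 0), (2, -1, 0), (3, -1, 0)]
  | 1, 2 => ![(0, 1, 0), (1, -1, 0), (2, -1, 0), (3, 1, 0)]
  | 2, 0 => ![(2, 1, 0), (3, -1, 0), (0, 1, 0), (1, -1, 0)]
  | 2, 1 => ![(1, 1, 0), (0, 1, 0), (3, -1, 0), (2, -1, 0)]
  | 2, 2 => ![(3, -1, 0), (2, 1, 0), (1, 1, 0), (0, -1, 0)]

lemma tab_sq : ∀ i j : Fin 3, comp (tab i j) (tab i j) = idT := by decide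

lemma tab_comm : ∀ i j k l : Fin 3, (i = k ∨ j = l) →
    comp (tab i j) (tab k l) = comp (tab k l) (tab i j) := by decide

lemma tab_row : ∀ i : Fin 3, comp (tab i 0) (comp (tab i 1) (tab i 2)) = idT := by decide

/-- Folding the six rows to three. -/
def fold (i : Fin 6) : Fin 3 := ⟨i.val / 2, by omega⟩

/-- The permutation attached to a cell of the `6 × 3` array. -/
def cellPerm (c : Fin 6 × Fin 3) : Equiv.Perm (Fin 4 × ℤ) where
  toFun := app (tab (fold c.1) c.2)
  invFun := app (tab (fold c.1) c.2)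
  left_inv p := by rw [← app_comp, tab_sq, app_id]
  right_inv p := by rw [← app_comp, tab_sq, app_id]

lemma cellPerm_apply (c : Fin 6 × Fin 3) (p : Fin 4 × ℤ) :
    cellPerm c p = app (tab (fold c.1) c.2) p := rfl

lemma cellPerm_sq (c : Fin 6 × Fin 3) : cellPerm c * cellPerm c = 1 := by
  ext1 p
  rw [Equiv.Perm.mul_apply, cellPerm_apply, cellPerm_apply, ← app_comp, tab_sq, app_id]
  rfl

lemma fold_eq_of_eq {i k : Fin 6} (h : i = k) : fold i = fold k := by rw [h]

lemma cellPerm_comm (i k : Fin 6) (j l : Fin 3) (h : i = k ∨ j = l) :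
    cellPerm (i, j) * cellPerm (k, l) = cellPerm (k, l) * cellPerm (i, j) := by
  ext1 p
  rw [Equiv.Perm.mul_apply, Equiv.Perm.mul_apply, cellPerm_apply, cellPerm_apply, cellPerm_apply,
    cellPerm_apply, ← app_comp, ← app_comp, tab_comm _ _ _ _ (h.imp fold_eq_of_eq id)]

lemma cellPerm_row (i : Fin 6) : cellPerm (i, 0) * cellPerm (i, 1) * cellPerm (i, 2) = 1 := by
  ext1 p
  rw [Equiv.Perm.mul_apply, Equiv.Perm.mul_apply, cellPerm_apply, cellPerm_apply, cellPerm_apply,
    ← app_comp, ← app_comp]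
  have := tab_row (fold i)
  have h2 : comp (comp (tab (fold i) 0) (tab (fold i) 1)) (tab (fold i) 2)
      = comp (tab (fold i) 0) (comp (tab (fold i) 1) (tab (fold i) 2)) := by
    have : ∀ i : Fin 3, comp (comp (tab i 0) (tab i 1)) (tab i 2)
      = comp (tab i 0) (comp (tab i 1) (tab i 2)) := by decide
    exact this _
  rw [h2, this, app_id]
  rfl

lemma cellPerm_col (j : Fin 3) : cellPerm (0, j) * cellPerm (1, j) * cellPerm (2, j) *
    cellPerm (3, j) * cellPerm (4, j) * cellPerm (5, j) = 1 := by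
  have key : ∀ i k : Fin 6, fold i = fold k → cellPerm (i, j) = cellPerm (k, j) := by
    intro i k h
    ext1 p
    rw [cellPerm_apply, cellPerm_apply, h]
  have h01 : cellPerm (1, j) = cellPerm (0, j) := key _ _ (by decide)
  have h23 : cellPerm (3, j) = cellPerm (2, j) := key _ _ (by decide)
  have h45 : cellPerm (5, j) = cellPerm (4, j) := key _ _ (by decide)
  rw [h01, h23, h45, cellPerm_sq, one_mul, cellPerm_sq, one_mul, cellPerm_sq]

/-- The action of `Γ(K_{3,6})` on `Fin 4 × ℤ`. -/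
noncomputable def actHom : GammaK36 →* Equiv.Perm (Fin 4 × ℤ) :=
  PresentedGroup.toGroup (rels := relators) (f := cellPerm) (by
    intro r hr
    rcases hr with ((⟨i, j, rfl⟩ | ⟨i, j, k, l, h, rfl⟩) | ⟨i, rfl⟩) | ⟨j, rfl⟩
    · simp only [x, map_mul, FreeGroup.lift_apply_of, cellPerm_sq]
    · simp only [x, map_mul, map_inv, FreeGroup.lift_apply_of]
      rw [cellPerm_comm i k j l h, mul_inv_cancel]
    · simp only [x, map_mul, FreeGroup.lift_apply_of, cellPerm_row]
    · simp only [x, map_mul, FreeGroup.lift_apply_of, cellPerm_col])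

/-- The generator of `Γ(K_{3,6})` in cell `(i, j)`. -/
def gen (i : Fin 6) (j : Fin 3) : GammaK36 := PresentedGroup.of (rels := relators) (i, j)

lemma actHom_gen (i : Fin 6) (j : Fin 3) (p : Fin 4 × ℤ) :
    actHom (gen i j) p = app (tab (fold i) j) p := by
  unfold actHom gen
  rw [PresentedGroup.toGroup.of]
  rfl

end Pool.Agent.Work.MP_2cd205_al
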