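import Mathlib

/-!
# The incidence group of `K_{3,6}` and Kazhdan's property (T): definitions
-/

namespace Pool.Agent.Work.MP_2cd205_al

/-- The free generator attached to the cell in row `i` (six rows) and column `j` (three columns). -/
abbrev x (i : Fin 6) (j : Fin 3) : FreeGroup (Fin 6 × Fin 3) := FreeGroup.of (i, j)

/-- The relators of the incidence group of `K_{3,6}`: squares of the generators, commutators of
generators whose cells share a row or a column, the three factors of each row, and the six factors
of each column. -/
def relators : Set (FreeGroup (Fin 6 × Fin 3)) :=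
  {r | ∃ i j, r = x i j * x i j} ∪
  {r | ∃ i j k l, (i = k ∨ j = l) ∧ r = (x i j * x k l) * (x k l * x i j)⁻¹} ∪
  {r | ∃ i, r = x i 0 * x i 1 * x i 2} ∪
  {r | ∃ j, r = x 0 j * x 1 j * x 2 j * x 3 j * x 4 j * x 5 j}

/-- The graph incidence group `Γ(K_{3,6})`, given by generators and relations. -/
abbrev GammaK36 : Type := PresentedGroup relators

/-- A unitary representation `π` of `G` on `H` (a homomorphism to the group of surjective linear
isometries of `H`) has almost invariant vectors: for every finite subset `F` of `G` and every
`ε > 0` there is a unit vector moved by less than `ε` by each element of `F`. -/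
def HasAlmostInvariantVectors {G : Type} [Group G] {H : Type} [NormedAddCommGroup H]
    [InnerProductSpace ℂ H] (π : G →* (H ≃ₗᵢ[ℂ] H)) : Prop :=
  ∀ (F : Finset G) (ε : ℝ), 0 < ε → ∃ v : H, ‖v‖ = 1 ∧ ∀ g ∈ F, ‖π g v - v‖ < ε

/-- Kazhdan's property (T) for a discrete group `G`: every unitary representation of `G` on a
complex Hilbert space that has almost invariant vectors has a nonzero invariant vector. -/
def HasPropertyT (G : Type) [Group G] : Prop :=
  ∀ (H : Type) [NormedAddCommGroup H] [InnerProductSpace ℂ H] [CompleteSpace H]
    (π : G →* (H ≃ₗᵢ[ℂ] H)), HasAlmostInvariantVectors π →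
    ∃ v : H, v ≠ 0 ∧ ∀ g : G, π g v = v

end Pool.Agent.Work.MP_2cd205_al
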