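import Pool.Agent.Work.MP_2cd205_al.Action

/-!
# The permutation representation on `ℓ²` and failure of property (T)
-/

open scoped ENNReal

namespace Pool.Agent.Work.MP_2cd205_al

section Perm

variable {S : Type}

/-- Square-summable complex functions on `S`. -/
abbrev L2 (S : Type) : Type := lp (fun _ : S => ℂ) 2

lemma perm_inv_right (σ : Equiv.Perm S) (s : S) : σ (σ⁻¹ s) = s := σ.apply_symm_apply s

lemma perm_inv_left (σ : Equiv.Perm S) (s : S) : σ⁻¹ (σ s) = s := σ.symm_apply_apply s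

lemma two_toReal_pos : 0 < (2 : ℝ≥0∞).toReal := by norm_num

lemma memLp_comp (σ : Equiv.Perm S) (f : L2 S) :
    Memℓp (fun s => (f : S → ℂ) (σ s)) 2 := by
  rw [memℓp_gen_iff two_toReal_pos]
  have h := (memℓp_gen_iff two_toReal_pos).1 (lp.memℓp f)
  exact (Equiv.summable_iff σ (f := fun i => ‖(f : S → ℂ) i‖ ^ (2 : ℝ≥0∞).toReal)).2 h

/-- Precomposition with a permutation, as a linear map. -/
noncomputable def compLin (σ : Equiv.Perm S) : L2 S →ₗ[ℂ] L2 S where
  toFun f := ⟨fun s => (f : S → ℂ) (σ s), memLp_comp σ f⟩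
  map_add' f g := by
    apply lp.ext
    rfl
  map_smul' c f := by
    apply lp.ext
    rfl

lemma compLin_apply (σ : Equiv.Perm S) (f : L2 S) (s : S) :
    (compLin σ f : S → ℂ) s = (f : S → ℂ) (σ s) := rfl

lemma norm_compLin (σ : Equiv.Perm S) (f : L2 S) : ‖compLin σ f‖ = ‖f‖ := by
  rw [lp.norm_eq_tsum_rpow two_toReal_pos, lp.norm_eq_tsum_rpow two_toReal_pos]
  congr 1
  exact Equiv.tsum_eq σ (fun i => ‖(f : S → ℂ) i‖ ^ (2 : ℝ≥0∞).toReal)

/-- Precomposition with a permutation, as a unitary operator. -/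
noncomputable def compIso (σ : Equiv.Perm S) : L2 S ≃ₗᵢ[ℂ] L2 S where
  toFun := compLin σ
  invFun := compLin σ⁻¹
  left_inv f := by
    apply lp.ext
    funext s
    rw [compLin_apply, compLin_apply, perm_inv_right]
  right_inv f := by
    apply lp.ext
    funext s
    rw [compLin_apply, compLin_apply, perm_inv_left]
  map_add' := map_add _
  map_smul' := map_smul _
  norm_map' := norm_compLin σ

lemma compIso_apply (σ : Equiv.Perm S) (f : L2 S) (s : S) :
    (compIso σ f : S → ℂ) s = (f : S → ℂ) (σ s) := rfl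

/-- The permutation representation of the group of permutations of `S`. -/
noncomputable def permRep : Equiv.Perm S →* (L2 S ≃ₗᵢ[ℂ] L2 S) where
  toFun σ := compIso σ⁻¹
  map_one' := by
    ext f s
    rfl
  map_mul' σ τ := by
    ext f s
    rw [compIso_apply, mul_inv_rev, Equiv.Perm.mul_apply]
    rfl

lemma permRep_apply (σ : Equiv.Perm S) (f : L2 S) (s : S) :
    (permRep σ f : S → ℂ) s = (f : S → ℂ) (σ⁻¹ s) := rfl

end Perm

/-- The unitary representation of `Γ(K_{3,6})` on `ℓ²(Fin 4 × ℤ)`. -/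
noncomputable def rep : GammaK36 →* (L2 (Fin 4 × ℤ) ≃ₗᵢ[ℂ] L2 (Fin 4 × ℤ)) :=
  permRep.comp actHom

/-- An invariant vector is constant along orbits. -/
lemma inv_const {f : L2 (Fin 4 × ℤ)} (hf : ∀ g, rep g f = f) (g : GammaK36) (s : Fin 4 × ℤ) :
    (f : Fin 4 × ℤ → ℂ) (actHom g s) = (f : Fin 4 × ℤ → ℂ) s := by
  have h := hf g
  have h2 : (rep g f : Fin 4 × ℤ → ℂ) (actHom g s) = (f : Fin 4 × ℤ → ℂ) s := by
    change (permRep (actHom g) f : Fin 4 × ℤ → ℂ) (actHom g s) = _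
    rw [permRep_apply, perm_inv_left]
  rw [← h2, h]

lemma inv_gen {f : L2 (Fin 4 × ℤ)} (hf : ∀ g, rep g f = f) (i : Fin 6) (j : Fin 3)
    (s : Fin 4 × ℤ) :
    (f : Fin 4 × ℤ → ℂ) (app (tab (fold i) j) s) = (f : Fin 4 × ℤ → ℂ) s := by
  rw [← actHom_gen, inv_const hf]

/-- The product of two column-like words is a translation on the second line. -/
lemma word_translation (n : ℤ) :
    app (tab 0 0) (app (tab 1 0) (app (tab 2 0) (app (tab 0 1) (app (tab 1 1)
      (app (tab 2 1) ((1 : Fin 4), n)))))) = ((1 : Fin 4), n + 1) := by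
  simp only [← app_comp]
  have h : comp (tab 0 0) (comp (tab 1 0) (comp (tab 2 0) (comp (tab 0 1) (comp (tab 1 1)
      (tab 2 1))))) 1 = (1, 1, 1) := by decide
  unfold app
  simp only [h, one_mul]

lemma inv_zero {f : L2 (Fin 4 × ℤ)} (hf : ∀ g, rep g f = f) : f = 0 := by
  have hstep : ∀ n : ℤ, (f : Fin 4 × ℤ → ℂ) (1, n + 1) = (f : Fin 4 × ℤ → ℂ) (1, n) := by
    intro n
    rw [← word_translation n]
    have f0 : fold 0 = 0 := by decide
    have f2 : fold 2 = 1 := by decide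
    have f4 : fold 4 = 2 := by decide
    have g0 := inv_gen hf 0
    have g2 := inv_gen hf 2
    have g4 := inv_gen hf 4
    rw [f0] at g0
    rw [f2] at g2
    rw [f4] at g4
    rw [g0, g2, g4, g0, g2, g4]
  have hconst : ∀ n : ℤ, (f : Fin 4 × ℤ → ℂ) (1, n) = (f : Fin 4 × ℤ → ℂ) (1, 0) := by
    intro n
    induction n using Int.induction_on with
    | zero => rfl
    | succ i ih => rw [hstep, ih]
    | pred i ih => rw [← ih, ← hstep, sub_add_cancel]
  have hsum := (memℓp_gen_iff two_toReal_pos).1 (lp.memℓp f)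
  have hsum1 : Summable (fun n : ℤ =>
      ‖(f : Fin 4 × ℤ → ℂ) ((1 : Fin 4), n)‖ ^ (2 : ℝ≥0∞).toReal) :=
    hsum.comp_injective (i := fun n : ℤ => ((1 : Fin 4), n)) (fun a b h => by
      simpa using h)
  have hzero1 : (f : Fin 4 × ℤ → ℂ) (1, 0) = 0 := by
    simp only [hconst] at hsum1
    rw [summable_const_iff] at hsum1
    have := (Real.rpow_eq_zero (norm_nonneg _) two_toReal_pos.ne').1 hsum1
    exact norm_eq_zero.1 this
  have h1 : ∀ n : ℤ, (f : Fin 4 × ℤ → ℂ) (1, n) = 0 := fun n => by rw [hconst, hzero1]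
  apply lp.ext
  funext ⟨i, n⟩
  have f0 : fold 0 = 0 := by decide
  have g0 := inv_gen hf 0
  rw [f0] at g0
  change (f : Fin 4 × ℤ → ℂ) (i, n) = 0
  fin_cases i
  · change (f : Fin 4 × ℤ → ℂ) (0, n) = 0
    rw [← g0 1 (0, n)]
    exact h1 _
  · exact h1 n
  · change (f : Fin 4 × ℤ → ℂ) (2, n) = 0
    rw [← g0 2 (2, n)]
    exact h1 _
  · change (f : Fin 4 × ℤ → ℂ) (3, n) = 0
    rw [← g0 0 (3, n)]
    exact h1 _

/-- The exponentially decaying function `(i, n) ↦ r ^ |n|`. -/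
noncomputable def bump (r : ℝ) (s : Fin 4 × ℤ) : ℂ := ((r ^ s.2.natAbs : ℝ) : ℂ)

lemma norm_bump {r : ℝ} (hr : 0 < r) (s : Fin 4 × ℤ) : ‖bump r s‖ = r ^ s.2.natAbs := by
  unfold bump
  rw [Complex.norm_real, Real.norm_of_nonneg (by positivity)]

lemma memLp_bump {r : ℝ} (hr : 0 < r) (hr1 : r < 1) : Memℓp (bump r) 2 := by
  rw [memℓp_gen_iff two_toReal_pos]
  have h1 : Summable (fun n : ℤ => (r ^ 2) ^ n.natAbs) := by
    have hg : Summable (fun n : ℕ => (r ^ 2) ^ n) :=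
      summable_geometric_of_lt_one (by positivity) (by nlinarith)
    apply Summable.of_nat_of_neg
    · simpa using hg
    · simpa using hg
  have h2 : Summable (fun p : Fin 4 × ℤ => (1 : ℝ) * (r ^ 2) ^ p.2.natAbs) := by
    have := Summable.mul_of_nonneg (f := fun _ : Fin 4 => (1 : ℝ))
      (g := fun n : ℤ => (r ^ 2) ^ n.natAbs) (Summable.of_finite) h1 (fun _ => by simp)
      (fun n => by positivity)
    exact this
  refine h2.congr ?_
  intro s
  rw [norm_bump hr, one_mul, ENNReal.toReal_ofNat, Real.rpow_ofNat, ← pow_mul, ← pow_mul, mul_comm]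

/-- The vector `(i, n) ↦ r ^ |n|` of `ℓ²`. -/
noncomputable def bumpVec (r : ℝ) (hr : 0 < r) (hr1 : r < 1) : L2 (Fin 4 × ℤ) :=
  ⟨bump r, memLp_bump hr hr1⟩

lemma bumpVec_apply (r : ℝ) (hr : 0 < r) (hr1 : r < 1) (s : Fin 4 × ℤ) :
    (bumpVec r hr hr1 : Fin 4 × ℤ → ℂ) s = bump r s := rfl

lemma bumpVec_ne_zero (r : ℝ) (hr : 0 < r) (hr1 : r < 1) : bumpVec r hr hr1 ≠ 0 := by
  intro h
  have : (bumpVec r hr hr1 : Fin 4 × ℤ → ℂ) (0, 0) = 0 := by rw [h]; rfl
  rw [bumpVec_apply, bump] at this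
  simp at this

/-- Every table entry is a signed shift by at most one. -/
lemma tab_small : ∀ i j : Fin 3, ∀ k : Fin 4,
    ((tab i j k).2.1 = 1 ∨ (tab i j k).2.1 = -1) ∧
    ((tab i j k).2.2 = 0 ∨ (tab i j k).2.2 = 1 ∨ (tab i j k).2.2 = -1) := by decide

lemma app_natAbs (i j : Fin 3) (s : Fin 4 × ℤ) :
    (app (tab i j) s).2.natAbs ≤ s.2.natAbs + 1 ∧ s.2.natAbs ≤ (app (tab i j) s).2.natAbs + 1 := by
  obtain ⟨h1, h2⟩ := tab_small i j s.1
  unfold app
  simp only
  rcases h1 with h1 | h1 <;> rcases h2 with h2 | h2 | h2 <;> rw [h1, h2] <;> omega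

lemma pow_diff {r : ℝ} (hr : 0 < r) (hr1 : r < 1) {a b : ℕ} (h1 : a ≤ b + 1) (h2 : b ≤ a + 1) :
    |r ^ a - r ^ b| ≤ (1 / r - 1) * r ^ b := by
  have hb : 0 < r ^ b := by positivity
  have hinv : 1 ≤ 1 / r := by
    rw [le_div_iff₀ hr]; linarith
  have key : 1 - r ≤ 1 / r - 1 := by
    have : 1 / r * r = 1 := by field_simp
    nlinarith
  have hcase : a = b + 1 ∨ a = b ∨ b = a + 1 := by omega
  rcases hcase with h | h | h
  · subst h
    have : r ^ (b + 1) - r ^ b = -((1 - r) * r ^ b) := by ring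
    rw [this, abs_neg, abs_of_nonneg (mul_nonneg (by linarith) hb.le)]
    exact mul_le_mul_of_nonneg_right key hb.le
  · subst h
    rw [sub_self, abs_zero]
    exact mul_nonneg (by linarith) hb.le
  · subst h
    have ha : 0 < r ^ a := by positivity
    have : (1 / r - 1) * r ^ (a + 1) = (1 - r) * r ^ a := by
      rw [pow_succ]
      field_simp
    rw [this]
    have h3 : r ^ a - r ^ (a + 1) = (1 - r) * r ^ a := by ring
    rw [h3, abs_of_nonneg (mul_nonneg (by linarith) ha.le)]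

/-- Pointwise comparison gives comparison of norms. -/
lemma norm_le_of_pointwise {S : Type} (f g : L2 S) (c : ℝ) (hc : 0 ≤ c)
    (h : ∀ s, ‖(f : S → ℂ) s‖ ≤ c * ‖(g : S → ℂ) s‖) : ‖f‖ ≤ c * ‖g‖ := by
  have hcg : ‖((c : ℂ) • g)‖ = c * ‖g‖ := by
    rw [norm_smul, Complex.norm_real, Real.norm_of_nonneg hc]
  rw [← hcg]
  apply lp.norm_mono (p := 2) (by norm_num)
  intro s
  have : (((c : ℂ) • g : L2 S) : S → ℂ) s = (c : ℂ) * (g : S → ℂ) s := rfl
  rw [this, norm_mul, Complex.norm_real, Real.norm_of_nonneg hc]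
  exact h s

lemma gen_inv (i : Fin 6) (j : Fin 3) (s : Fin 4 × ℤ) :
    (actHom (gen i j))⁻¹ s = app (tab (fold i) j) s := by
  rw [Equiv.Perm.inv_eq_iff_eq, actHom_gen, ← app_comp, tab_sq, app_id]

lemma rep_gen_small (i : Fin 6) (j : Fin 3) (r : ℝ) (hr : 0 < r) (hr1 : r < 1) :
    ‖rep (gen i j) (bumpVec r hr hr1) - bumpVec r hr hr1‖ ≤ (1 / r - 1) * ‖bumpVec r hr hr1‖ := by
  have hinv : 1 ≤ 1 / r := by
    rw [le_div_iff₀ hr]; linarith
  apply norm_le_of_pointwise _ _ _ (by linarith)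
  intro s
  have h1 : ((rep (gen i j) (bumpVec r hr hr1) - bumpVec r hr hr1 : L2 (Fin 4 × ℤ)) :
      Fin 4 × ℤ → ℂ) s = bump r (app (tab (fold i) j) s) - bump r s := by
    rw [← gen_inv]
    rfl
  rw [h1, bumpVec_apply, norm_bump hr]
  unfold bump
  rw [← Complex.ofReal_sub, Complex.norm_real, Real.norm_eq_abs]
  obtain ⟨h2, h3⟩ := app_natAbs (fold i) j s
  exact pow_diff hr hr1 h2 h3

/-- For each group element the displacement of the bump vectors is at most linear in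
`1 / r - 1`. -/
lemma rep_small (g : GammaK36) : ∃ C : ℝ, 0 ≤ C ∧ ∀ (r : ℝ) (hr : 0 < r) (hr1 : r < 1),
    ‖rep g (bumpVec r hr hr1) - bumpVec r hr hr1‖ ≤ C * (1 / r - 1) * ‖bumpVec r hr hr1‖ := by
  have hg : g ∈ Subgroup.closure (Set.range (PresentedGroup.of (rels := relators))) := by
    rw [PresentedGroup.closure_range_of]
    trivial
  induction hg using Subgroup.closure_induction with
  | mem y hy =>
    obtain ⟨⟨i, j⟩, rfl⟩ := hy
    refine ⟨1, zero_le_one, fun r hr hr1 => ?_⟩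
    rw [one_mul]
    exact rep_gen_small i j r hr hr1
  | one =>
    refine ⟨0, le_rfl, fun r hr hr1 => ?_⟩
    rw [map_one]
    have : (1 : L2 (Fin 4 × ℤ) ≃ₗᵢ[ℂ] L2 (Fin 4 × ℤ)) (bumpVec r hr hr1) = bumpVec r hr hr1 := rfl
    rw [this, sub_self, norm_zero, zero_mul, zero_mul]
  | mul a b _ _ ha hb =>
    obtain ⟨C, hC, hC2⟩ := ha
    obtain ⟨D, hD, hD2⟩ := hb
    refine ⟨C + D, by positivity, fun r hr hr1 => ?_⟩
    have h1 := hC2 r hr hr1
    have h2 := hD2 r hr hr1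
    have h3 : rep (a * b) (bumpVec r hr hr1) - bumpVec r hr hr1 =
        rep a (rep b (bumpVec r hr hr1) - bumpVec r hr hr1) +
          (rep a (bumpVec r hr hr1) - bumpVec r hr hr1) := by
      rw [map_mul, map_sub]
      have : (rep a * rep b) (bumpVec r hr hr1) = rep a (rep b (bumpVec r hr hr1)) := rfl
      rw [this]
      abel
    rw [h3]
    calc _ ≤ ‖rep a (rep b (bumpVec r hr hr1) - bumpVec r hr hr1)‖ +
          ‖rep a (bumpVec r hr hr1) - bumpVec r hr hr1‖ := norm_add_le _ _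
      _ = ‖rep b (bumpVec r hr hr1) - bumpVec r hr hr1‖ +
          ‖rep a (bumpVec r hr hr1) - bumpVec r hr hr1‖ := by
          rw [LinearIsometryEquiv.norm_map]
      _ ≤ D * (1 / r - 1) * ‖bumpVec r hr hr1‖ + C * (1 / r - 1) * ‖bumpVec r hr hr1‖ :=
          add_le_add h2 h1
      _ = (C + D) * (1 / r - 1) * ‖bumpVec r hr hr1‖ := by ring
  | inv a _ ha =>
    obtain ⟨C, hC, hC2⟩ := ha
    refine ⟨C, hC, fun r hr hr1 => ?_⟩
    have h1 := hC2 r hr hr1
    have h3 : rep a⁻¹ (bumpVec r hr hr1) - bumpVec r hr hr1 =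
        - rep a⁻¹ (rep a (bumpVec r hr hr1) - bumpVec r hr hr1) := by
      rw [map_sub]
      have : rep a⁻¹ (rep a (bumpVec r hr hr1)) = bumpVec r hr hr1 := by
        have h4 : (rep a⁻¹ * rep a) (bumpVec r hr hr1) = rep a⁻¹ (rep a (bumpVec r hr hr1)) := rfl
        rw [← h4, ← map_mul, inv_mul_cancel, map_one]
        rfl
      rw [this]
      abel
    rw [h3, norm_neg, LinearIsometryEquiv.norm_map]
    exact h1

lemma rep_almost_invariant : HasAlmostInvariantVectors rep := by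
  intro F ε hε
  choose C hC hC2 using rep_small
  -- a common constant
  obtain ⟨M, hM, hM2⟩ : ∃ M : ℝ, 0 < M ∧ ∀ g ∈ F, C g ≤ M := by
    refine ⟨∑ g ∈ F, C g + 1, ?_, ?_⟩
    · have := Finset.sum_nonneg (fun g (_ : g ∈ F) => hC g)
      linarith
    · intro g hg
      have := Finset.single_le_sum (fun g (_ : g ∈ F) => hC g) hg
      linarith
  -- choose `r` with `M * (1 / r - 1) < ε`
  obtain ⟨r, hr, hr1, hr2⟩ : ∃ r : ℝ, 0 < r ∧ r < 1 ∧ M * (1 / r - 1) < ε := by
    refine ⟨1 / (1 + ε / (2 * M)), by positivity, ?_, ?_⟩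
    · rw [div_lt_one (by positivity)]
      have : 0 < ε / (2 * M) := by positivity
      linarith
    · rw [one_div_one_div, add_sub_cancel_left]
      have : M * (ε / (2 * M)) = ε / 2 := by field_simp
      rw [this]
      linarith
  have hb : 0 < ‖bumpVec r hr hr1‖ := norm_pos_iff.2 (bumpVec_ne_zero r hr hr1)
  have hinv : 0 ≤ 1 / r - 1 := by
    rw [sub_nonneg, le_div_iff₀ hr]; linarith
  refine ⟨((‖bumpVec r hr hr1‖⁻¹ : ℝ) : ℂ) • bumpVec r hr hr1, ?_, ?_⟩
  · rw [norm_smul, Complex.norm_real, Real.norm_of_nonneg (by positivity), inv_mul_cancel₀ hb.ne']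
  · intro g hg
    rw [map_smul, ← smul_sub, norm_smul, Complex.norm_real, Real.norm_of_nonneg (by positivity)]
    have h1 := hC2 g r hr hr1
    calc ‖bumpVec r hr hr1‖⁻¹ * ‖rep g (bumpVec r hr hr1) - bumpVec r hr hr1‖
        ≤ ‖bumpVec r hr hr1‖⁻¹ * (C g * (1 / r - 1) * ‖bumpVec r hr hr1‖) :=
          mul_le_mul_of_nonneg_left h1 (by positivity)
      _ = C g * (1 / r - 1) := by field_simp
      _ ≤ M * (1 / r - 1) := mul_le_mul_of_nonneg_right (hM2 g hg) hinv
      _ < ε := hr2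

theorem not_propertyT : ¬ HasPropertyT GammaK36 := by
  intro h
  obtain ⟨v, hv, hv2⟩ := h _ rep rep_almost_invariant
  exact hv (inv_zero hv2)

end Pool.Agent.Work.MP_2cd205_al
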